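import Pool.Agent.Helper5_MGHD.Main

/-!
# `MP_0eca13_an`: the maximal globally hyperbolic development always exists and is unique

Since `-∂_t²Φ - Ψ∂_t∂_xΦ + 2(2+Ψ)∂_x²Φ = -(∂_t + (2+Ψ)∂_x)(∂_t - 2∂_x)Φ` (with frozen `Ψ`), the
quantity `Ψ` solves `∂_tΨ + (2+Ψ)∂_xΨ = 0`, and the ingoing characteristics are the fixed lines
`x + 2t = c`. In a GHD the backward ingoing and outgoing (straight) characteristics of every
point, and the triangle between them, stay in the GHD down to `{t = 0}`. This determines `Ψ` and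
`Φ`, and every GHD is contained in one explicit GHD.
-/

set_option autoImplicit false

open Set
open scoped ContDiff

namespace Pool.Agent.Results.MP_0eca13_an.UniqueMGHD

open Pool.Agent.Helper5MGHD

/-- For all smooth data `(φ₀, φ₁)` on `ℝ` with `Ψ|_{t=0} = φ₁ - 2φ₀' ≠ -4` there is exactly one
maximal globally hyperbolic development (up to the irrelevant values of `Φ` outside `Ω`). -/
theorem result (φ₀ φ₁ : ℝ → ℝ) (hφ₀ : ContDiff ℝ ∞ φ₀) (hφ₁ : ContDiff ℝ ∞ φ₁)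
    (hne : ∀ x, φ₁ x - 2 * deriv φ₀ x ≠ -4) :
    ∃ (Ω : Set (ℝ × ℝ)) (Φ : ℝ × ℝ → ℝ), IsMGHD φ₀ φ₁ Ω Φ ∧
      ∀ (Ω' : Set (ℝ × ℝ)) (Φ' : ℝ × ℝ → ℝ), IsMGHD φ₀ φ₁ Ω' Φ' → Ω' = Ω ∧ EqOn Φ' Φ Ω :=
  exists_unique_MGHD hφ₀ hφ₁ hne

end Pool.Agent.Results.MP_0eca13_an.UniqueMGHD
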